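import Mathlib

/-!
# MP_ecebd1_co: the difference index of bipartite graphs versus half the sum index

For every `m` there is a bipartite graph with sum index at most `m + 1` and difference index at
least `m`.
-/

namespace Pool.Agent.Results.MP_ecebd1_co.UnboundedGap

open Finset

/-- The set of edge sums of a labelling. -/
def sumSet {V : Type*} (G : SimpleGraph V) (f : V → ℤ) : Set ℤ :=
  {s | ∃ u v, G.Adj u v ∧ s = f u + f v}

/-- The set of edge differences of a labelling. -/
def diffSet {V : Type*} (G : SimpleGraph V) (f : V → ℤ) : Set ℤ :=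
  {s | ∃ u v, G.Adj u v ∧ s = |f u - f v|}

/-- The sum index. -/
noncomputable def sm {V : Type*} (G : SimpleGraph V) : ℕ :=
  sInf {k | ∃ f : V → ℤ, Function.Injective f ∧ k = (sumSet G f).ncard}

/-- The difference index. -/
noncomputable def df {V : Type*} (G : SimpleGraph V) : ℕ :=
  sInf {k | ∃ f : V → ℤ, Function.Injective f ∧ k = (diffSet G f).ncard}

/-- The two copies of the box `{0, …, K}^m`. -/
abbrev Vert (m K : ℕ) : Type := (Fin m → Fin (K + 1)) ⊕ (Fin m → Fin (K + 1))

/-- `z = x` or `z = x + e_i` for some `i`. -/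
def Rel (m K : ℕ) (x z : Fin m → Fin (K + 1)) : Prop :=
  z = x ∨ ∃ i, (z i).val = (x i).val + 1 ∧ ∀ j, j ≠ i → z j = x j

/-- The bipartite graph. -/
def boxGraph (m K : ℕ) : SimpleGraph (Vert m K) where
  Adj u v := match u, v with
    | Sum.inl x, Sum.inr z => Rel m K x z
    | Sum.inr z, Sum.inl x => Rel m K x z
    | Sum.inl _, Sum.inl _ => False
    | Sum.inr _, Sum.inr _ => False
  symm := ⟨by
    rintro (x | x) (z | z) h
    · exact h
    · exact h
    · exact h
    · exact h⟩
  loopless := ⟨by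
    rintro (x | x) h
    · exact h
    · exact h⟩

theorem boxGraph_bipartite (m K : ℕ) : (boxGraph m K).IsBipartite := by
  refine ⟨⟨fun v => match v with
    | Sum.inl _ => 0
    | Sum.inr _ => 1, ?_⟩⟩
  rintro (x | x) (z | z) h
  · exact h.elim
  · simp
  · simp
  · exact h.elim

/-- base `K + 1` value of a vector -/
def val (m K : ℕ) (x : Fin m → Fin (K + 1)) : ℕ := ∑ i, (x i : ℕ) * (K + 1) ^ (i : ℕ)

theorem val_inj (m K : ℕ) : Function.Injective (val m K) := by
  intro x y h
  apply finFunctionFinEquiv.injective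
  apply Fin.ext
  rw [finFunctionFinEquiv_apply, finFunctionFinEquiv_apply]
  exact h

theorem val_lt (m K : ℕ) (x : Fin m → Fin (K + 1)) : val m K x < (K + 1) ^ m := by
  have := (finFunctionFinEquiv x).2
  rw [finFunctionFinEquiv_apply] at this
  exact this

theorem val_step (m K : ℕ) (x z : Fin m → Fin (K + 1)) (i : Fin m)
    (h1 : (z i).val = (x i).val + 1) (h2 : ∀ j, j ≠ i → z j = x j) :
    val m K z = val m K x + (K + 1) ^ (i : ℕ) := by
  unfold val
  have hz := Finset.add_sum_erase univ (fun j => (z j : ℕ) * (K + 1) ^ (j : ℕ)) (Finset.mem_univ i)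
  have hx := Finset.add_sum_erase univ (fun j => (x j : ℕ) * (K + 1) ^ (j : ℕ)) (Finset.mem_univ i)
  rw [← hz, ← hx]
  have : ∑ j ∈ univ.erase i, (z j : ℕ) * (K + 1) ^ (j : ℕ) =
      ∑ j ∈ univ.erase i, (x j : ℕ) * (K + 1) ^ (j : ℕ) := by
    apply Finset.sum_congr rfl
    intro j hj
    rw [h2 j (Finset.ne_of_mem_erase hj)]
  rw [this, h1]
  ring

/-- The labelling with few edge sums. -/
def lab (m K : ℕ) : Vert m K → ℤ
  | Sum.inl x => val m K x
  | Sum.inr z => 2 * (K + 1) ^ m - val m K z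

theorem lab_inj (m K : ℕ) : Function.Injective (lab m K) := by
  have hlt := val_lt m K
  rintro (x | x) (z | z) h
  · simp only [lab, Nat.cast_inj] at h
    rw [val_inj m K h]
  · exfalso
    simp only [lab] at h
    have h1 := hlt x
    have h2 := hlt z
    have h1' : (val m K x : ℤ) < (K + 1) ^ m := by exact_mod_cast h1
    have h2' : (val m K z : ℤ) < (K + 1) ^ m := by exact_mod_cast h2
    linarith
  · exfalso
    simp only [lab] at h
    have h1 := hlt x
    have h2 := hlt z
    have h1' : (val m K x : ℤ) < (K + 1) ^ m := by exact_mod_cast h1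
    have h2' : (val m K z : ℤ) < (K + 1) ^ m := by exact_mod_cast h2
    linarith
  · simp only [lab] at h
    have : (val m K x : ℤ) = val m K z := by linarith
    have h9 : val m K x = val m K z := by exact_mod_cast this
    rw [val_inj m K h9]

theorem sm_le (m K : ℕ) : sm (boxGraph m K) ≤ m + 1 := by
  have hmem : (sumSet (boxGraph m K) (lab m K)).ncard ∈
      {k | ∃ f : Vert m K → ℤ, Function.Injective f ∧ k = (sumSet (boxGraph m K) f).ncard} :=
    ⟨lab m K, lab_inj m K, rfl⟩
  refine (Nat.sInf_le hmem).trans ?_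
  have key : ∀ x z, Rel m K x z → lab m K (Sum.inl x) + lab m K (Sum.inr z) ∈
      (((Finset.univ : Finset (Option (Fin m))).image (fun o => match o with
        | none => (2 * (K + 1) ^ m : ℤ)
        | some i => 2 * (K + 1) ^ m - (K + 1) ^ (i : ℕ)) : Finset ℤ) : Set ℤ) := by
    rintro x z (rfl | ⟨i, h1, h2⟩)
    · rw [Finset.mem_coe, Finset.mem_image]
      exact ⟨none, Finset.mem_univ _, by simp [lab]⟩
    · rw [Finset.mem_coe, Finset.mem_image]
      refine ⟨some i, Finset.mem_univ _, ?_⟩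
      simp only [lab]
      rw [val_step m K x z i h1 h2]
      push_cast
      ring
  have hsub : sumSet (boxGraph m K) (lab m K) ⊆
      (((Finset.univ : Finset (Option (Fin m))).image (fun o => match o with
        | none => (2 * (K + 1) ^ m : ℤ)
        | some i => 2 * (K + 1) ^ m - (K + 1) ^ (i : ℕ)) : Finset ℤ) : Set ℤ) := by
    rintro s ⟨u, v, huv, rfl⟩
    rcases u with x | z <;> rcases v with x' | z'
    · exact huv.elim
    · exact key x z' huv
    · have h := key x' z huv
      have e : lab m K (Sum.inr z) + lab m K (Sum.inl x') =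
          lab m K (Sum.inl x') + lab m K (Sum.inr z) := add_comm _ _
      rw [e]; exact h
    · exact huv.elim
  refine (Set.ncard_le_ncard hsub (Finset.finite_toSet _)).trans ?_
  rw [Set.ncard_coe_finset]
  refine Finset.card_image_le.trans ?_
  simp

/-- Labels are bounded combinations of the differences. -/
theorem combo (m K : ℕ) (f : Vert m K → ℤ) (D : Finset ℤ)
    (hD : ∀ u v, (boxGraph m K).Adj u v → |f u - f v| ∈ D) :
    ∀ (n : ℕ) (x : Fin m → Fin (K + 1)), ∑ i, (x i : ℕ) = n →
      ∃ c : ↥D → ℤ, (∀ d, c d ∈ Finset.Icc (-(2 * n : ℤ)) (2 * n)) ∧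
        f (Sum.inl x) = f (Sum.inl 0) + ∑ d, c d * (d : ℤ) := by
  classical
  intro n
  induction n with
  | zero =>
    intro x hx
    have : x = 0 := by
      ext i
      have := (Finset.sum_eq_zero_iff.1 hx) i (Finset.mem_univ i)
      simpa using this
    subst this
    exact ⟨fun _ => 0, by simp, by simp⟩
  | succ n ih =>
    intro x hx
    obtain ⟨i, hi⟩ : ∃ i, 0 < (x i).val := by
      by_contra hcon
      push Not at hcon
      have : ∑ i, (x i : ℕ) = 0 := Finset.sum_eq_zero (fun i _ => by have := hcon i; omega)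
      omega
    let y : Fin m → Fin (K + 1) := Function.update x i ⟨(x i).val - 1, by omega⟩
    have hyi : (x i).val = (y i).val + 1 := by simp [y]; omega
    have hyj : ∀ j, j ≠ i → x j = y j := by
      intro j hj; simp [y, hj]
    have hysum : ∑ j, (y j : ℕ) = n := by
      have h1 := Finset.add_sum_erase Finset.univ (fun j => (x j : ℕ)) (Finset.mem_univ i)
      have h2 := Finset.add_sum_erase Finset.univ (fun j => (y j : ℕ)) (Finset.mem_univ i)
      have h3 : ∑ j ∈ univ.erase i, (x j : ℕ) = ∑ j ∈ univ.erase i, (y j : ℕ) := by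
        apply Finset.sum_congr rfl
        intro j hj
        rw [hyj j (Finset.ne_of_mem_erase hj)]
      omega
    obtain ⟨c, hc, hcf⟩ := ih y hysum
    have a1 : (boxGraph m K).Adj (Sum.inr x) (Sum.inl x) := Or.inl rfl
    have a2 : (boxGraph m K).Adj (Sum.inr x) (Sum.inl y) := Or.inr ⟨i, hyi, hyj⟩
    have d1 := hD _ _ a1
    have d2 := hD _ _ a2
    obtain ⟨s1, hs1, e1⟩ : ∃ s : ℤ, (s = 1 ∨ s = -1) ∧
        f (Sum.inl x) = f (Sum.inr x) + s * |f (Sum.inr x) - f (Sum.inl x)| := by
      rcases abs_choice (f (Sum.inr x) - f (Sum.inl x)) with h | h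
      · exact ⟨-1, Or.inr rfl, by rw [h]; ring⟩
      · exact ⟨1, Or.inl rfl, by rw [h]; ring⟩
    obtain ⟨s2, hs2, e2⟩ : ∃ s : ℤ, (s = 1 ∨ s = -1) ∧
        f (Sum.inr x) = f (Sum.inl y) + s * |f (Sum.inr x) - f (Sum.inl y)| := by
      rcases abs_choice (f (Sum.inr x) - f (Sum.inl y)) with h | h
      · exact ⟨1, Or.inl rfl, by rw [h]; ring⟩
      · exact ⟨-1, Or.inr rfl, by rw [h]; ring⟩
    refine ⟨fun d => c d + (if d = ⟨_, d1⟩ then s1 else 0) + (if d = ⟨_, d2⟩ then s2 else 0),
      ?_, ?_⟩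
    · intro d
      have := hc d
      rw [Finset.mem_Icc] at this ⊢
      push_cast
      rcases hs1 with rfl | rfl <;> rcases hs2 with rfl | rfl <;> split_ifs <;>
        constructor <;> linarith [this.1, this.2]
    · simp only [add_mul, Finset.sum_add_distrib, ite_mul, zero_mul, Finset.sum_ite_eq',
        Finset.mem_univ, if_true]
      linear_combination e1 + e2 + hcf

theorem le_df_aux (m K : ℕ) (hm : 1 ≤ m) (hK : (4 * m) ^ (m - 1) ≤ K) (f : Vert m K → ℤ)
    (hf : Function.Injective f) : m ≤ (diffSet (boxGraph m K) f).ncard := by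
  classical
  by_contra hcon
  push Not at hcon
  have hfin : (diffSet (boxGraph m K) f).Finite := by
    have : diffSet (boxGraph m K) f ⊆ Set.range (fun p : Vert m K × Vert m K => |f p.1 - f p.2|) := by
      rintro s ⟨u, v, -, rfl⟩
      exact ⟨(u, v), rfl⟩
    exact (Set.finite_range _).subset this
  set D : Finset ℤ := hfin.toFinset with hDdef
  have hDcard : D.card = (diffSet (boxGraph m K) f).ncard := by
    rw [Set.ncard_eq_toFinset_card _ hfin]
  have hD : ∀ u v, (boxGraph m K).Adj u v → |f u - f v| ∈ D := by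
    intro u v huv
    rw [hDdef, Set.Finite.mem_toFinset]
    exact ⟨u, v, huv, rfl⟩
  have hcombo := combo m K f D hD
  let L : ℕ := 2 * (m * K)
  let Φ : (↥D → ℤ) → ℤ := fun c => f (Sum.inl 0) + ∑ d, c d * (d : ℤ)
  let S : Finset ℤ := (Fintype.piFinset (fun _ : ↥D => Finset.Icc (-(L : ℤ)) L)).image Φ
  have hmaps : ∀ x : Fin m → Fin (K + 1), f (Sum.inl x) ∈ S := by
    intro x
    obtain ⟨c, hc, hcf⟩ := hcombo _ x rfl
    rw [Finset.mem_image]
    refine ⟨c, ?_, hcf.symm⟩
    rw [Fintype.mem_piFinset]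
    intro d
    have h1 := hc d
    rw [Finset.mem_Icc] at h1 ⊢
    have h2 : ∑ i, (x i : ℕ) ≤ m * K := by
      calc ∑ i, (x i : ℕ) ≤ ∑ _i : Fin m, K := Finset.sum_le_sum (fun i _ => by
            have := (x i).2; omega)
        _ = m * K := by simp
    have h3 : (2 * ((∑ i, (x i : ℕ) : ℕ) : ℤ)) ≤ (L : ℤ) := by
      simp only [L]; push_cast
      have h4 : ((∑ i, (x i : ℕ) : ℕ) : ℤ) ≤ ((m * K : ℕ) : ℤ) := by exact_mod_cast h2
      push_cast at h4
      linarith
    constructor <;> linarith [h1.1, h1.2]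
  have hcard : (K + 1) ^ m ≤ (2 * L + 1) ^ D.card := by
    have h1 : (Finset.univ : Finset (Fin m → Fin (K + 1))).card ≤ S.card :=
      Finset.card_le_card_of_injOn (fun x => f (Sum.inl x)) (fun x _ => hmaps x)
        (fun x _ y _ h => Sum.inl_injective (hf h))
    have h2 : S.card ≤ (2 * L + 1) ^ D.card := by
      refine Finset.card_image_le.trans ?_
      rw [Fintype.card_piFinset]
      simp only [Int.card_Icc, Finset.prod_const, Finset.card_univ, Fintype.card_coe]
      apply Nat.pow_le_pow_left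
      omega
    have h3 : (Finset.univ : Finset (Fin m → Fin (K + 1))).card = (K + 1) ^ m := by simp
    omega
  have h5 : (2 * L + 1) ^ D.card ≤ (4 * m * (K + 1)) ^ (m - 1) := by
    have h6 : 2 * L + 1 ≤ 4 * m * (K + 1) := by simp only [L]; nlinarith
    have h7 : D.card ≤ m - 1 := by omega
    calc (2 * L + 1) ^ D.card ≤ (4 * m * (K + 1)) ^ D.card := Nat.pow_le_pow_left h6 _
      _ ≤ (4 * m * (K + 1)) ^ (m - 1) := Nat.pow_le_pow_right (by positivity) h7
  rw [mul_pow] at h5
  have h8 : (K + 1) ^ m = (K + 1) * (K + 1) ^ (m - 1) := by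
    rw [← pow_succ']; congr 1; omega
  have h9 : (4 * m) ^ (m - 1) * (K + 1) ^ (m - 1) < (K + 1) * (K + 1) ^ (m - 1) :=
    Nat.mul_lt_mul_of_pos_right (by omega) (by positivity)
  omega

theorem le_df (m K : ℕ) (hm : 1 ≤ m) (hK : (4 * m) ^ (m - 1) ≤ K) : m ≤ df (boxGraph m K) := by
  have hne : {k | ∃ f : Vert m K → ℤ, Function.Injective f ∧
      k = (diffSet (boxGraph m K) f).ncard}.Nonempty := ⟨_, lab m K, lab_inj m K, rfl⟩
  apply le_csInf hne
  rintro k ⟨f, hf, rfl⟩
  exact le_df_aux m K hm hK f hf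

/-- **Full (positive) answer to Q1 of MP_ecebd1_co.**  For every integer `k` there is a finite
bipartite graph `G` with at least one edge such that `df(G) - ⌈sm(G)/2⌉ ≥ k`. -/
theorem result (k : ℤ) : ∃ (V : Type) (_ : Fintype V) (G : SimpleGraph V),
    G.IsBipartite ∧ (∃ u v, G.Adj u v) ∧ k ≤ (df G : ℤ) - ⌈(sm G : ℚ) / 2⌉ := by
  obtain ⟨j, hj⟩ : ∃ j : ℕ, k ≤ j := ⟨k.toNat, Int.self_le_toNat k⟩
  let m := 2 * j + 1
  let K := (4 * m) ^ (m - 1)
  refine ⟨Vert m K, inferInstance, boxGraph m K, boxGraph_bipartite m K,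
    ⟨Sum.inl 0, Sum.inr 0, Or.inl rfl⟩, ?_⟩
  have h1 := sm_le m K
  have h2 := le_df m K (by omega) le_rfl
  have h3 : ⌈(sm (boxGraph m K) : ℚ) / 2⌉ ≤ (j + 1 : ℤ) := by
    rw [Int.ceil_le]
    push_cast
    have h4 : (sm (boxGraph m K) : ℚ) ≤ 2 * j + 2 := by
      have : sm (boxGraph m K) ≤ 2 * j + 2 := by omega
      exact_mod_cast this
    linarith
  have h5 : ((2 * j + 1 : ℕ) : ℤ) ≤ (df (boxGraph m K) : ℤ) := by exact_mod_cast h2
  push_cast at h5
  linarith

end Pool.Agent.Results.MP_ecebd1_co.UnboundedGap
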